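import Pool.Agent.H1.N4D.PWM
import Pool.Agent.H1.N4D.SIZ
import Pool.Agent.H1.N4D.WLG
import Pool.Agent.H1.N4D.WTS
import Pool.Agent.H10.N4D.STR
import Pool.Agent.H17.N4D.PWP
import Pool.Agent.H21.N4D.WIN
import Pool.Agent.H38.N4D.FRQ
import Pool.Agent.H38.N4D.PRI
import Pool.Agent.H38.N4D.SHW
import Pool.Agent.H5.N4D.EQD
import Pool.Agent.H50.N4D.E2P
import Pool.Agent.H50.N4D.ORE
import Pool.Agent.H51.N4D.LOC
import Pool.Agent.H54.N4D.END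
import Pool.Agent.H54.N4D.PH1
import Pool.Agent.H59.N4D.MAC
import Pool.Agent.H59.N4D.POS
import Pool.Agent.H61.N4D.E1
import Pool.Agent.H61.N4D.GPC
import Pool.Agent.H61.N4D.MOM
import Pool.Agent.H62.N4D.REL
import Pool.Agent.H62.N4D.RFN
import Pool.Agent.H67.N4D.MER
import Pool.Agent.H69.N4D.NEV
import Pool.Agent.H69.N4D.TTX
import Pool.Agent.H7.N4D.SBL
import Pool.Agent.H7.N4D.SBW
import Pool.Agent.H72.N4D.CONS
import Pool.Agent.H72.N4D.PI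
import Pool.Agent.H73.N4D.E1P
import Pool.Agent.H79.N4D.ORI
import Pool.Agent.H81.N4D.CUT
import Pool.Agent.H81.N4D.E1S
import Pool.Agent.H81.N4D.SQQ
import Pool.Agent.H81.N4D.TWO
import Pool.Agent.H91.N4D.CHI
import Pool.Agent.H91.N4D.FIN
import Pool.Agent.H95.N4D.AVG
import Pool.Agent.H95.N4D.CPA
import Pool.Agent.H95.N4D.SCN
import Pool.Agent.H95.N4D.SPC
import Pool.Agent.H96.N4D.ORA
import Pool.Agent.H96.N4D.PSP
import Pool.Agent.H96.N4D.PSS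
import Pool.Agent.H97.N4D.E2S
import Pool.Agent.H97.N4D.EDW
import Pool.Agent.H97.N4D.PH2
import Pool.Agent.H97.N4D.SQR
import Pool.Agent.H83.VU.All

/-!
# Assembly of the board `n4d_modules` (part (D) of theorem N4)

All rows of the board are closed; the spectral gap of the rotated multiplicative
cosine comes from the board `vin_modules` (Vinogradov mean value with uniform
degree).  The final statement `tEND` is the absolute form of the end game: a bounded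
multiplicative function with values `1, -1` which on logarithmically almost all
windows follows the sign of one cosine of a non-rational frequency does not exist.
-/

set_option autoImplicit false

namespace Pool.Agent.H6.N4D.All

open Pool.Agent.H6.N4D

theorem tAVG : T_AVG := Pool.Agent.H95.N4D.pf_AVG
theorem tCHI : T_CHI := Pool.Agent.H91.N4D.pf_CHI
theorem tPOS : T_POS := Pool.Agent.H59.N4D.pf_POS
theorem tSPC : T_SPC := Pool.Agent.H95.N4D.pf_SPC tPOS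
theorem tMER : T_MER := Pool.Agent.H67.N4D.pf_MER
theorem tWTS : T_WTS := Pool.Agent.H1.N4D.pf_WTS tMER
theorem tSIZ : T_SIZ := Pool.Agent.H1.N4D.pf_SIZ
theorem tPWP : T_PWP := Pool.Agent.H17.N4D.pf_PWP tWTS tAVG tSIZ
theorem tCUT : T_CUT := Pool.Agent.H81.N4D.pf_CUT tCHI
theorem tSQR : T_SQR := Pool.Agent.H97.N4D.pf_SQR
theorem tLOC : T_LOC := Pool.Agent.H51.N4D.pf_LOC tSPC tPWP tCHI tCUT tSQR tWTS tSIZ
theorem tPRI : T_PRI := Pool.Agent.H38.N4D.pf_PRI tSQR tWTS tSIZ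
theorem tMAC : T_MAC := Pool.Agent.H59.N4D.pf_MAC tLOC tPRI tSIZ
theorem tCON : T_CON := Pool.Agent.H72.N4D.pf_CON tMAC tSIZ
theorem tCPA : T_CPA := Pool.Agent.H95.N4D.pf_CPA
theorem tCTN : T_CTN := Pool.Agent.H91.N4D.pf_CTN
theorem tTWO : T_TWO := Pool.Agent.H81.N4D.pf_TWO
theorem tE1P : T_E1P := Pool.Agent.H73.N4D.pf_E1P tTWO tSIZ tWTS
theorem tE1S : T_E1S := Pool.Agent.H81.N4D.pf_E1S tSIZ
theorem tE1 : T_E1 := Pool.Agent.H61.N4D.pf_E1 tE1P tE1S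
theorem tE2P : T_E2P := Pool.Agent.H50.N4D.pf_E2P tTWO tSIZ tWTS
theorem tE2S : T_E2S := Pool.Agent.H97.N4D.pf_E2S tSIZ
theorem tSCN : T_SCN := Pool.Agent.H95.N4D.pf_SCN
theorem tSQQ : T_SQQ := Pool.Agent.H81.N4D.pf_SQQ tCPA tSCN
theorem tFRQ : T_FRQ := Pool.Agent.H38.N4D.pf_FRQ
theorem tEQD : T_EQD := Pool.Agent.H5.N4D.pf_EQD
theorem tRFN : T_RFN := Pool.Agent.H62.N4D.pf_RFN tEQD
theorem tRIG : T_RIG := Pool.Agent.H54.N4D.pf_RIG tSQQ tFRQ tRFN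
theorem tEDW : T_EDW := Pool.Agent.H97.N4D.pf_EDW tRIG tSIZ
theorem tSPM : T_SPM := Pool.Agent.H95.N4D.pf_SPM tPOS
theorem tPWM : T_PWM := Pool.Agent.H1.N4D.pf_PWM tWTS tAVG tSIZ
theorem tFIN : T_FIN := Pool.Agent.H91.N4D.pf_FIN tSPM tPWM tCHI tCUT tWTS tSIZ
theorem tMOM : T_MOM := Pool.Agent.H61.N4D.pf_MOM
theorem tNEV : T_NEV := Pool.Agent.H69.N4D.pf_NEV tSIZ
theorem tORA : T_ORA := Pool.Agent.H96.N4D.pf_ORA tSIZ
theorem tORE : T_ORE := Pool.Agent.H50.N4D.pf_ORE tSIZ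
theorem tORI : T_ORI := Pool.Agent.H79.N4D.pf_ORI tORE tSIZ tWTS
theorem tRMO : T_RMO := Pool.Agent.H54.N4D.pf_RMO
theorem tPH1 : T_PH1 := Pool.Agent.H54.N4D.pf_PH1 tNEV tSIZ tRMO
theorem tSTP : T_STP := Pool.Agent.H91.N4D.pf_STP tSIZ
theorem tPH2 : T_PH2 := Pool.Agent.H97.N4D.pf_PH2 tSTP tSIZ
theorem tPI : T_PI := Pool.Agent.H72.N4D.pf_PI tCON tPRI tSIZ
theorem tPSP : T_PSP := Pool.Agent.H96.N4D.pf_PSP tSIZ tWTS
theorem tPSS : T_PSS := Pool.Agent.H96.N4D.pf_PSS tSIZ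
theorem tWLG : T_WLG := Pool.Agent.H1.N4D.pf_WLG tMER
theorem tTTX : T_TTX := Pool.Agent.H69.N4D.pf_TTX tSIZ
theorem tREL : T_REL := Pool.Agent.H62.N4D.pf_REL tPI tFIN tWLG tRMO tE1 tPH1 tORA tORI tE2P tE2S tPH2 tTTX tPSS tPSP tSIZ
theorem tSBW : T_SBW := Pool.Agent.H7.N4D.pf_SBW
theorem tSBL : T_SBL := Pool.Agent.H7.N4D.pf_SBL tSBW
theorem tSHW : T_SHW := Pool.Agent.H38.N4D.pf_SHW tRIG tSIZ
theorem tSTR : T_STR := Pool.Agent.H10.N4D.pf_STR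
theorem tWIN : T_WIN := Pool.Agent.H21.N4D.WN.pf_WIN tSBL tCTN tSTR tMOM tSHW tEDW tWTS tSIZ

theorem gap : ∃ (B : ℕ) (c X₁ : ℝ), Gap B c X₁ := Pool.Agent.H61.N4D.pf_GPC Pool.Agent.H83.VU.aGAP

theorem tEND : T_END := by
  obtain ⟨B, c, X₁, h⟩ := gap
  exact Pool.Agent.H54.N4D.pf_END B c X₁ h tREL tWIN

end Pool.Agent.H6.N4D.All
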