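import Mathlib

/-!
# The end game for local Fourier uniformity at bounded lengths: definitions

`nd x` is the distance of `x` to the nearest integer; a parameter structure `Par` describes a
stretch `I = [a, b)` of the logarithmic scale `x t = exp (h t)`.
-/

set_option autoImplicit false

open Finset

namespace Pool.Agent.H6.N4D

/-! ## the distance to the nearest integer -/

/-- the distance to the nearest integer -/
noncomputable def nd (x : ℝ) : ℝ := |x - round x|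

/-- the signed remainder -/
noncomputable def sr (x : ℝ) : ℝ := x - round x

lemma nd_nonneg (x : ℝ) : 0 ≤ nd x := abs_nonneg _

lemma abs_sr (x : ℝ) : |sr x| = nd x := rfl

lemma nd_le_half (x : ℝ) : nd x ≤ 1 / 2 := abs_sub_round x

/-- `nd x` is the least distance to an integer -/
lemma nd_le (x : ℝ) (k : ℤ) : nd x ≤ |x - k| := round_le x k

lemma exists_int (x : ℝ) : ∃ k : ℤ, |x - k| = nd x := ⟨round x, rfl⟩

lemma nd_le_abs (x : ℝ) : nd x ≤ |x| := by simpa using nd_le x 0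

lemma nd_add_int (x : ℝ) (k : ℤ) : nd (x + k) = nd x := by
  unfold nd; rw [round_add_intCast]; push_cast; congr 1; ring

lemma nd_sub_int (x : ℝ) (k : ℤ) : nd (x - k) = nd x := by
  unfold nd; rw [round_sub_intCast]; push_cast; congr 1; ring

lemma nd_add_nat (x : ℝ) (k : ℕ) : nd (x + k) = nd x := by
  simpa using nd_add_int x (k : ℤ)

lemma nd_neg (x : ℝ) : nd (-x) = nd x := by
  apply le_antisymm
  · obtain ⟨k, hk⟩ := exists_int x
    have := nd_le (-x) (-k)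
    push_cast at this
    rw [← hk]
    calc nd (-x) ≤ |-x - -(k : ℝ)| := this
      _ = |x - k| := by rw [← abs_neg]; congr 1; ring
  · obtain ⟨k, hk⟩ := exists_int (-x)
    have := nd_le x (-k)
    push_cast at this
    rw [← hk]
    calc nd x ≤ |x - -(k : ℝ)| := this
      _ = |-x - k| := by rw [← abs_neg]; congr 1; ring

lemma nd_add_le (x y : ℝ) : nd (x + y) ≤ nd x + nd y := by
  obtain ⟨k, hk⟩ := exists_int x
  obtain ⟨m, hm⟩ := exists_int y
  have := nd_le (x + y) (k + m)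
  push_cast at this
  calc nd (x + y) ≤ |x + y - (k + m)| := this
    _ = |(x - k) + (y - m)| := by congr 1; ring
    _ ≤ |x - k| + |y - m| := abs_add_le _ _
    _ = nd x + nd y := by rw [hk, hm]

lemma nd_sub_le (x y : ℝ) : nd (x - y) ≤ nd x + nd y := by
  have := nd_add_le x (-y)
  rwa [nd_neg, ← sub_eq_add_neg] at this

lemma nd_sub_comm (x y : ℝ) : nd (x - y) = nd (y - x) := by
  rw [← nd_neg]; congr 1; ring

/-- the triangle inequality -/
lemma nd_tri (x y z : ℝ) : nd (x - z) ≤ nd (x - y) + nd (y - z) := by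
  have := nd_add_le (x - y) (y - z)
  have h : x - y + (y - z) = x - z := by ring
  rwa [h] at this

lemma abs_nd_sub (x y : ℝ) : |nd x - nd y| ≤ nd (x - y) := by
  rw [abs_le]
  constructor
  · have := nd_sub_le x (x - y)
    have h : x - (x - y) = y := by ring
    rw [h] at this; linarith
  · have := nd_add_le (x - y) y
    have h : x - y + y = x := by ring
    rw [h] at this; linarith

lemma nd_int_mul_le (m : ℤ) (x : ℝ) : nd (m * x) ≤ |(m : ℝ)| * nd x := by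
  obtain ⟨k, hk⟩ := exists_int x
  have := nd_le (m * x) (m * k)
  push_cast at this
  calc nd (m * x) ≤ |m * x - m * k| := this
    _ = |(m : ℝ)| * |x - k| := by rw [← abs_mul]; congr 1; ring
    _ = _ := by rw [hk]

lemma nd_nat_mul_le (m : ℕ) (x : ℝ) : nd (m * x) ≤ m * nd x := by
  have := nd_int_mul_le (m : ℤ) x
  simpa using this

lemma nd_eq_abs {x : ℝ} (h : |x| ≤ 1 / 2) : nd x = |x| := by
  apply le_antisymm (nd_le_abs x)
  unfold nd
  by_cases h0 : round x = 0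
  · rw [h0]; simp
  · have h1 : (1 : ℝ) ≤ |(round x : ℝ)| := by
      have : 1 ≤ |round x| := Int.one_le_abs h0
      exact_mod_cast this
    have h2 : |(round x : ℝ)| ≤ |x - round x| + |x| := by
      calc |(round x : ℝ)| = |x - (x - round x)| := by congr 1; ring
        _ ≤ |x| + |x - round x| := abs_sub _ _
        _ = _ := by ring
    linarith

lemma nd_pm {τ : ℝ} (h : τ = 1 ∨ τ = -1) (x : ℝ) : nd (τ * x) = nd x := by
  rcases h with h | h <;> subst h <;> simp [nd_neg]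

/-! ## the circle -/

/-- `ee x = exp (2 π i x)` -/
noncomputable def ee (x : ℝ) : ℂ := Complex.exp ((2 * Real.pi * x : ℝ) * Complex.I)

lemma norm_ee (x : ℝ) : ‖ee x‖ = 1 := Complex.norm_exp_ofReal_mul_I _

lemma ee_add (x y : ℝ) : ee (x + y) = ee x * ee y := by
  unfold ee; rw [← Complex.exp_add]; congr 1; push_cast; ring

lemma ee_int (k : ℤ) : ee k = 1 := by
  unfold ee
  rw [Complex.exp_eq_one_iff]
  exact ⟨k, by push_cast; ring⟩

lemma ee_half : ee (1 / 2) = -1 := by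
  unfold ee
  have : ((2 * Real.pi * (1 / 2) : ℝ) : ℂ) * Complex.I = Real.pi * Complex.I := by
    push_cast; ring
  rw [this]; exact Complex.exp_pi_mul_I

lemma norm_ee_sub_one_le (x : ℝ) : ‖ee x - 1‖ ≤ 2 * Real.pi * |x| := by
  unfold ee
  have := Real.norm_exp_I_mul_ofReal_sub_one_le (x := 2 * Real.pi * x)
  rw [mul_comm Complex.I] at this
  refine this.trans (le_of_eq ?_)
  rw [Real.norm_eq_abs, abs_mul, abs_of_pos (by positivity)]

lemma norm_ee_sub_le (x y : ℝ) : ‖ee x - ee y‖ ≤ 2 * Real.pi * nd (x - y) := by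
  obtain ⟨k, hk⟩ := exists_int (x - y)
  have h1 : ee x = ee y * ee (x - y - k) := by
    rw [← ee_add, show y + (x - y - k) = x + ((-k : ℤ) : ℝ) by push_cast; ring, ee_add,
      ee_int, mul_one]
  rw [h1, show ee y * ee (x - y - k) - ee y = ee y * (ee (x - y - k) - 1) by ring, norm_mul,
    norm_ee, one_mul, ← hk]
  exact norm_ee_sub_one_le _

/-! ## the parameters -/

/-- the prime numbers in `(A, B]` -/
noncomputable def Pr (A B : ℝ) : Finset ℕ := (Ioc ⌊A⌋₊ ⌊B⌋₊).filter Nat.Prime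

lemma mem_Pr {A B : ℝ} (hB : 0 ≤ B) {p : ℕ} :
    p ∈ Pr A B ↔ A < p ∧ (p : ℝ) ≤ B ∧ p.Prime := by
  unfold Pr
  rw [mem_filter, mem_Ioc]
  constructor
  · rintro ⟨⟨h1, h2⟩, h3⟩
    exact ⟨Nat.lt_of_floor_lt h1, (Nat.le_floor_iff hB).1 h2, h3⟩
  · rintro ⟨h1, h2, h3⟩
    refine ⟨⟨?_, (Nat.le_floor_iff hB).2 h2⟩, h3⟩
    rcases le_or_gt 0 A with hA | hA
    · exact (Nat.floor_lt hA).2 h1
    · rw [Nat.floor_of_nonpos hA.le]; exact h3.pos

/-- `LL X = (log X) ^ (19/20)` -/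
noncomputable def LL (X : ℝ) : ℝ := Real.log X ^ (19 / 20 : ℝ)

/-- `PP X = exp ((log X) ^ (19/20))` -/
noncomputable def PP (X : ℝ) : ℝ := Real.exp (Real.log X ^ (19 / 20 : ℝ))

lemma log_PP (X : ℝ) : Real.log (PP X) = LL X := Real.log_exp _

lemma PP_pos (X : ℝ) : 0 < PP X := Real.exp_pos _

lemma PP_pow (X : ℝ) (m : ℕ) : PP X ^ m = Real.exp (m * LL X) := by
  unfold PP LL; rw [← Real.exp_nat_mul]

lemma tendsto_LL : Filter.Tendsto LL Filter.atTop Filter.atTop :=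
  (tendsto_rpow_atTop (by norm_num)).comp Real.tendsto_log_atTop

/-- for every `C` one has `C ≤ LL X` if `X` is large -/
lemma LL_large (C : ℝ) : ∃ X₀ : ℝ, ∀ X, X₀ ≤ X → C ≤ LL X := by
  have := (tendsto_LL.eventually_ge_atTop C)
  rw [Filter.eventually_atTop] at this
  exact this

/-- parameters of a stretch of the logarithmic scale -/
structure Par where
  X : ℝ
  h : ℝ
  rho : ℝ
  J : ℕ
  K : ℕ
  a : ℤ
  b : ℤ

namespace Par

variable (S : Par)

/-- `P = exp ((log X) ^ (19/20))` -/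
noncomputable def P : ℝ := PP S.X

/-- `L = log P` -/
noncomputable def L : ℝ := LL S.X

/-- the location `x t = exp (h t)` -/
noncomputable def x (t : ℤ) : ℝ := Real.exp (S.h * t)

/-- the integer `n t`, the integer part of `x t` -/
noncomputable def n (t : ℤ) : ℕ := ⌊S.x t⌋₊

/-- the shift of the prime number `p` -/
noncomputable def l (p : ℕ) : ℤ := round (Real.log p / S.h)

/-- the stretch -/
noncomputable def I : Finset ℤ := Ico S.a S.b

/-- the number of the small shifts -/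
noncomputable def V : ℕ := ⌊S.rho ^ 2 / S.h⌋₊

/-- the length of the stretch -/
noncomputable def N : ℝ := (S.b : ℝ) - S.a

open Classical in
/-- the set of the `t` in the stretch with the property `E` -/
noncomputable def fl (E : ℤ → Prop) : Finset ℤ := S.I.filter E

/-- the number of `t` in the stretch with the property `E` -/
noncomputable def cnt (E : ℤ → Prop) : ℝ := ((S.fl E).card : ℝ)

/-- the prime numbers in `(P, P ^ (2 K)]` -/
noncomputable def Q : Finset ℕ := Pr S.P (S.P ^ (2 * S.K))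

/-- the conditions on the parameters -/
structure Ok : Prop where
  hX : 1 ≤ S.X
  hK : 1 ≤ S.K
  hh : 0 < S.h
  hJ : S.h * 2 ^ S.J = Real.log 2
  hX5 : S.h * S.X ^ 5 ≤ 1
  hI1 : 12 * S.K * S.L ≤ S.N * S.h
  hI2 : S.N * S.h ≤ 13 * S.K * S.L
  hr0 : 0 < S.rho
  hr1 : S.rho * S.X ^ (1 / 4 : ℝ) ≤ 1
  hra : S.P ^ (100 * S.K) ≤ S.rho * S.x S.a
  hb : S.x S.b ≤ S.X

variable {S}

lemma P_pos : 0 < S.P := Real.exp_pos _

lemma log_P : Real.log S.P = S.L := Real.log_exp _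

lemma P_pow (m : ℕ) : S.P ^ m = Real.exp (m * S.L) := PP_pow _ m

lemma x_pos (t : ℤ) : 0 < S.x t := Real.exp_pos _

lemma x_add (t v : ℤ) : S.x (t + v) = S.x t * Real.exp (S.h * v) := by
  unfold x; rw [← Real.exp_add]; push_cast; congr 1; ring

lemma x_sub (t v : ℤ) : S.x (t - v) = S.x t * Real.exp (-(S.h * v)) := by
  unfold x; rw [← Real.exp_add]; push_cast; congr 1; ring

lemma x_mono (hh : 0 < S.h) {t v : ℤ} (h : t ≤ v) : S.x t ≤ S.x v := by
  unfold x
  apply Real.exp_le_exp.2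
  have : (t : ℝ) ≤ v := by exact_mod_cast h
  nlinarith

lemma mem_I {t : ℤ} : t ∈ S.I ↔ S.a ≤ t ∧ t < S.b := by unfold I; rw [mem_Ico]

open Classical in
lemma mem_fl {E : ℤ → Prop} {t : ℤ} : t ∈ S.fl E ↔ t ∈ S.I ∧ E t := by
  unfold fl; exact mem_filter

lemma cnt_nonneg (E : ℤ → Prop) : 0 ≤ S.cnt E := Nat.cast_nonneg _

lemma cnt_mono {E F : ℤ → Prop} (h : ∀ t ∈ S.I, E t → F t) : S.cnt E ≤ S.cnt F := by
  unfold cnt
  exact_mod_cast card_le_card (fun t ht => by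
    rw [mem_fl] at ht ⊢; exact ⟨ht.1, h t ht.1 ht.2⟩)

lemma cnt_or (E F : ℤ → Prop) : S.cnt (fun t => E t ∨ F t) ≤ S.cnt E + S.cnt F := by
  unfold cnt
  rw [← Nat.cast_add, Nat.cast_le]
  refine le_trans (card_le_card ?_) (card_union_le _ _)
  intro t ht
  rw [mem_fl] at ht
  rw [mem_union, mem_fl, mem_fl]
  rcases ht.2 with h | h
  · exact Or.inl ⟨ht.1, h⟩
  · exact Or.inr ⟨ht.1, h⟩

/-- subadditivity in the form used most often -/
lemma cnt_le_add {E F G : ℤ → Prop} (h : ∀ t ∈ S.I, E t → F t ∨ G t) :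
    S.cnt E ≤ S.cnt F + S.cnt G := (cnt_mono h).trans (cnt_or F G)

lemma cnt_le_card (E : ℤ → Prop) : S.cnt E ≤ (S.I.card : ℝ) := by
  unfold cnt
  exact_mod_cast card_le_card (fun t ht => (mem_fl.1 ht).1)

lemma card_I (hN : 0 ≤ S.N) : (S.I.card : ℝ) = S.N := by
  unfold I N at *
  rw [Int.card_Ico]
  have h : 0 ≤ S.b - S.a := by
    have : (0 : ℝ) ≤ ((S.b - S.a : ℤ) : ℝ) := by push_cast; exact hN
    exact_mod_cast this
  have h2 : ((S.b - S.a).toNat : ℤ) = S.b - S.a := Int.toNat_of_nonneg h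
  have h3 : (((S.b - S.a).toNat : ℤ) : ℝ) = ((S.b - S.a : ℤ) : ℝ) := by rw [h2]
  push_cast at h3
  exact h3

/-- counting along a shift -/
lemma cnt_shift (E : ℤ → Prop) (v : ℤ) :
    S.cnt (fun t => t + v ∈ S.I ∧ E (t + v)) ≤ S.cnt E := by
  unfold cnt
  rw [Nat.cast_le]
  apply card_le_card_of_injOn (fun t => t + v)
  · intro t ht
    rw [mem_coe, mem_fl] at ht
    rw [mem_coe, mem_fl]
    exact ht.2
  · intro s _ t _ hst
    simpa using hst

/-- few points of the stretch leave it under a shift -/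
lemma cnt_out (v : ℤ) : S.cnt (fun t => t + v ∉ S.I) ≤ |(v : ℝ)| := by
  unfold cnt
  have h3 : ((v.natAbs : ℕ) : ℝ) = |(v : ℝ)| := by
    rw [← Int.cast_abs, Int.abs_eq_natAbs]; simp
  rw [← h3, Nat.cast_le]
  refine le_trans (card_le_card (t := Ico (S.b - v) S.b ∪ Ico S.a (S.a - v)) ?_)
    ((card_union_le _ _).trans ?_)
  · intro t ht
    rw [mem_fl, mem_I, mem_I] at ht
    rw [mem_union, mem_Ico, mem_Ico]
    omega
  · rw [Int.card_Ico, Int.card_Ico]
    omega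

/-- if few points have the property then some point does not have it -/
lemma exists_not {E : ℤ → Prop} (hN : 0 ≤ S.N) (h : S.cnt E < S.N) : ∃ t ∈ S.I, ¬ E t := by
  by_contra hc
  have hc' : ∀ t ∈ S.I, E t := by
    intro t ht
    by_contra h'
    exact hc ⟨t, ht, h'⟩
  have : S.cnt E = S.N := by
    rw [← card_I hN]
    unfold cnt
    congr 2
    ext t
    rw [mem_fl]
    exact ⟨fun h => h.1, fun h => ⟨h, hc' t h⟩⟩
  linarith

lemma cnt_congr {E F : ℤ → Prop} (h : ∀ t ∈ S.I, E t ↔ F t) : S.cnt E = S.cnt F :=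
  le_antisymm (cnt_mono fun t ht => (h t ht).1) (cnt_mono fun t ht => (h t ht).2)

end Par

/-! ## functions which are almost constant along the edges -/

/-- `f` is almost constant along the edges -/
structure Edg (S : Par) (ε : ℝ) (f : ℤ → ℂ) : Prop where
  pr : ∑ p ∈ S.Q, 1 / (p : ℝ) *
    S.cnt (fun t => t - S.l p ∈ S.I ∧ ε < ‖f (t - S.l p) - f t‖) ≤ ε * S.N
  sh : ∀ w : ℕ, 1 ≤ w → w ≤ S.V →
    S.cnt (fun t => t + (w : ℤ) ∈ S.I ∧ ε < ‖f (t + w) - f t‖) ≤ ε * S.N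

/-- the mean square difference along `l`, inside the stretch -/
noncomputable def Asq (S : Par) (f : ℤ → ℂ) (l : ℤ) : ℝ :=
  ∑ t ∈ S.I.filter (fun t => t - l ∈ S.I), ‖f (t - l) - f t‖ ^ 2

/-- the mean square sum along `l`, inside the stretch -/
noncomputable def Asp (S : Par) (f : ℤ → ℂ) (l : ℤ) : ℝ :=
  ∑ t ∈ S.I.filter (fun t => t - l ∈ S.I), ‖f (t - l) + f t‖ ^ 2

/-- the quadratic form of the shift by `v` -/
noncomputable def Dg (g : ℤ → ℂ) (v : ℤ) : ℝ := ∑' t : ℤ, ‖g (t + v) - g t‖ ^ 2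

/-- the quadratic form of the shift by `v`, sign plus -/
noncomputable def Dp (g : ℤ → ℂ) (v : ℤ) : ℝ := ∑' t : ℤ, ‖g (t + v) + g t‖ ^ 2

/-- the cut-off function -/
noncomputable def chi (S : Par) (t : ℤ) : ℝ :=
  max 0 (min 1 (min (((t : ℝ) - S.a) * S.h / (S.K * S.L)) (((S.b : ℝ) - t) * S.h / (S.K * S.L))))

/-- the points of the stretch at distance at least `c K L` from the boundary -/
noncomputable def In (S : Par) (c : ℝ) : Finset ℤ :=
  S.I.filter fun t => c * (S.K * S.L) ≤ ((t : ℝ) - S.a) * S.h ∧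
    c * (S.K * S.L) ≤ ((S.b : ℝ) - t) * S.h

/-! ## the relations -/

/-- the relation along the shift by `w`, with a sign -/
def ShR (S : Par) (ε₀ : ℝ) (θ φ : ℤ → ℝ) (t w : ℤ) : Prop :=
  ∃ τ : ℝ, (τ = 1 ∨ τ = -1) ∧ nd (θ (t + w) - τ * θ t) ≤ ε₀ / (S.rho * S.x t) ∧
    nd (φ (t + w) - τ * (φ t + θ t * ((S.n (t + w) : ℝ) - S.n t))) ≤ ε₀

/-- the relation along the edge of the prime number `p`, with a sign -/
def EdR (S : Par) (ε₀ : ℝ) (θ φ : ℤ → ℝ) (p : ℕ) (t : ℤ) : Prop :=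
  ∃ τ : ℝ, (τ = 1 ∨ τ = -1) ∧
    nd (θ (t - S.l p) - τ * (p * θ t)) ≤ p * ε₀ / (S.rho * S.x t) ∧
    nd (φ (t - S.l p) - τ * (φ t + θ t * (p * (S.n (t - S.l p) : ℝ) - S.n t) + 1 / 2)) ≤ ε₀

/-- the relations -/
structure Rel (S : Par) (ε ε₀ η : ℝ) (θ φ : ℤ → ℝ) : Prop where
  gen : S.cnt (fun t => ¬ (η ≤ nd (θ t) ∧ η ≤ nd (2 * θ t) ∧ η ≤ nd (3 * θ t))) ≤ ε * S.N
  shf : ∀ w : ℕ, (w : ℝ) * S.h ≤ S.rho / 4 →
    S.cnt (fun t => t + (w : ℤ) ∈ S.I ∧ ¬ ShR S ε₀ θ φ t w) ≤ ε * S.N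
  edg : ∑ p ∈ S.Q, 1 / (p : ℝ) *
    S.cnt (fun t => t - S.l p ∈ S.I ∧ ¬ EdR S ε₀ θ φ p t) ≤ ε * S.N
  two : S.cnt (fun t => t - S.l 2 ∈ S.I ∧ ¬ EdR S ε₀ θ φ 2 t) ≤ ε * S.N

/-- the oriented relation along the shift by `w` -/
def OSh (S : Par) (ε₀ : ℝ) (θ φ : ℤ → ℝ) (t w : ℤ) : Prop :=
  nd (θ (t + w) - θ t) ≤ ε₀ / (S.rho * S.x t) ∧
    nd (φ (t + w) - (φ t + θ t * ((S.n (t + w) : ℝ) - S.n t))) ≤ ε₀

/-- the oriented relation along the edge of `p` -/
def OEd (S : Par) (ε₀ : ℝ) (θ φ : ℤ → ℝ) (p : ℕ) (t : ℤ) : Prop :=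
  nd (θ (t - S.l p) - p * θ t) ≤ p * ε₀ / (S.rho * S.x t) ∧
    nd (φ (t - S.l p) - (φ t + θ t * (p * (S.n (t - S.l p) : ℝ) - S.n t) + 1 / 2)) ≤ ε₀

/-- the oriented relations -/
structure ORel (S : Par) (ε ε₀ : ℝ) (θ φ : ℤ → ℝ) : Prop where
  shf : ∀ w : ℕ, w ≤ S.V →
    S.cnt (fun t => t + (w : ℤ) ∈ S.I ∧ ¬ OSh S ε₀ θ φ t w) ≤ ε * S.N
  edg : ∑ p ∈ S.Q, 1 / (p : ℝ) *
    S.cnt (fun t => t - S.l p ∈ S.I ∧ ¬ OEd S ε₀ θ φ p t) ≤ ε * S.N
  two : S.cnt (fun t => t - S.l 2 ∈ S.I ∧ ¬ OEd S ε₀ θ φ 2 t) ≤ ε * S.N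

/-- the normalized difference of `± θ` along `2 ^ k` -/
noncomputable def y1 (S : Par) (ε₁ : ℝ) (θ : ℤ → ℝ) (k : ℕ) (t : ℤ) : ℝ :=
  S.rho * S.x t / ε₁ * min (nd (θ (t + 2 ^ k) - θ t)) (nd (θ (t + 2 ^ k) + θ t))

/-- the clipped normalized difference -/
noncomputable def F1 (S : Par) (ε₁ : ℝ) (θ : ℤ → ℝ) (k : ℕ) (t : ℤ) : ℝ :=
  min (y1 S ε₁ θ k t) 16

/-- an odd function, `psi y = y` for `|y| ≤ 3` and `psi y = 0` for `|y| ≥ 4` -/
noncomputable def psi (y : ℝ) : ℝ := max (min y (max (12 - 3 * y) 0)) (min (-12 - 3 * y) 0)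

/-- the function `(min |y| 4, psi y)` -/
noncomputable def Phi (y : ℝ) : ℂ := ⟨min |y| 4, psi y⟩

lemma psi_eq {y : ℝ} (h : |y| ≤ 3) : psi y = y := by
  rw [abs_le] at h
  unfold psi
  rcases le_total 0 y with h0 | h0
  · rw [max_eq_left (a := 12 - 3 * y) (by linarith), min_eq_left (a := y) (by linarith),
      min_eq_left (a := -12 - 3 * y) (by linarith), max_eq_left (by linarith)]
  · rw [max_eq_left (a := 12 - 3 * y) (by linarith), min_eq_left (a := y) (by linarith)]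
    apply max_eq_left
    exact (min_le_left _ _).trans (by linarith)

lemma psi_zero {y : ℝ} (h : 4 ≤ |y|) : psi y = 0 := by
  unfold psi
  rcases le_total 0 y with h0 | h0
  · rw [abs_of_nonneg h0] at h
    rw [max_eq_right (a := 12 - 3 * y) (by linarith), min_eq_right (a := y) (by linarith),
      min_eq_left (a := -12 - 3 * y) (by linarith), max_eq_left (by linarith)]
  · rw [abs_of_nonpos h0] at h
    rw [max_eq_left (a := 12 - 3 * y) (by linarith), min_eq_left (a := y) (by linarith),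
      min_eq_right (a := -12 - 3 * y) (by linarith), max_eq_right (by linarith)]

lemma Phi_large {y : ℝ} (h : 4 ≤ |y|) : Phi y = 4 := by
  unfold Phi
  rw [psi_zero h, min_eq_right h]
  rfl

lemma psi_lip (y z : ℝ) : |psi y - psi z| ≤ 3 * |y - z| := by
  unfold psi
  have h1 : |max (12 - 3 * y) 0 - max (12 - 3 * z) 0| ≤ 3 * |y - z| := by
    refine (abs_max_sub_max_le_abs _ _ _).trans (le_of_eq ?_)
    rw [show 12 - 3 * y - (12 - 3 * z) = -3 * (y - z) by ring, abs_mul]; norm_num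
  have h2 : |min y (max (12 - 3 * y) 0) - min z (max (12 - 3 * z) 0)| ≤ 3 * |y - z| := by
    refine (abs_min_sub_min_le_max _ _ _ _).trans (max_le ?_ h1)
    linarith [abs_nonneg (y - z)]
  have h3 : |min (-12 - 3 * y) 0 - min (-12 - 3 * z) 0| ≤ 3 * |y - z| := by
    refine (abs_min_sub_min_le_max _ _ _ _).trans (max_le (le_of_eq ?_) (by simp))
    rw [show -12 - 3 * y - (-12 - 3 * z) = -3 * (y - z) by ring, abs_mul]; norm_num
  exact (abs_max_sub_max_le_max _ _ _ _).trans (max_le h2 h3)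

lemma Phi_lip (y z : ℝ) : ‖Phi y - Phi z‖ ≤ 4 * |y - z| := by
  have h1 : |min |y| 4 - min |z| 4| ≤ |y - z| :=
    (abs_min_sub_min_le_max _ _ _ _).trans
      (max_le (abs_abs_sub_abs_le y z) (by simp))
  have h := Complex.norm_le_abs_re_add_abs_im (Phi y - Phi z)
  have h2 : (Phi y - Phi z).re = min |y| 4 - min |z| 4 := rfl
  have h3 : (Phi y - Phi z).im = psi y - psi z := rfl
  rw [h2, h3] at h
  linarith [psi_lip y z]

lemma abs_psi_le (y : ℝ) : |psi y| ≤ 3 := by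
  rcases le_total |y| 3 with h | h
  · rw [psi_eq h]; exact h
  · rcases le_total 4 |y| with h4 | h4
    · rw [psi_zero h4]; norm_num
    · unfold psi
      rcases le_total 0 y with h0 | h0
      · rw [abs_of_nonneg h0] at h h4
        rw [max_eq_left (a := 12 - 3 * y) (by linarith), min_eq_right (a := y) (by linarith),
          min_eq_left (a := -12 - 3 * y) (by linarith), max_eq_left (by linarith), abs_le]
        constructor <;> linarith
      · rw [abs_of_nonpos h0] at h h4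
        rw [max_eq_left (a := 12 - 3 * y) (by linarith), min_eq_left (a := y) (by linarith),
          min_eq_left (a := -12 - 3 * y) (by linarith), max_eq_right (by linarith), abs_le]
        constructor <;> linarith

lemma norm_Phi_le (y : ℝ) : ‖Phi y‖ ≤ 7 := by
  have h := Complex.norm_le_abs_re_add_abs_im (Phi y)
  have h2 : (Phi y).re = min |y| 4 := rfl
  have h3 : (Phi y).im = psi y := rfl
  rw [h2, h3] at h
  have h4 : |min |y| 4| ≤ 4 := by
    rw [abs_of_nonneg (le_min (abs_nonneg _) (by norm_num))]; exact min_le_right _ _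
  linarith [abs_psi_le y]

/-- the residual function of the second phase -/
noncomputable def F2 (S : Par) (ε₁ : ℝ) (θ : ℤ → ℝ) (k : ℕ) (T : ℝ) (t : ℤ) : ℂ :=
  Phi (S.rho * S.x t / ε₁ *
    sr (θ (t + 2 ^ k) - θ t - T * (Real.exp (-(2 ^ k * S.h)) - 1) / S.x t))

/-- the differences of `θ` along `2 ^ k` are those of `T / x` -/
def HH (S : Par) (κ ε₁ : ℝ) (θ : ℤ → ℝ) (k : ℕ) (T : ℝ) : Prop :=
  S.cnt (fun t => ¬ (t + 2 ^ k ∈ S.I ∧
    nd (θ (t + 2 ^ k) - θ t - T * (Real.exp (-(2 ^ k * S.h)) - 1) / S.x t) ≤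
      ε₁ / (S.rho * S.x t))) ≤ κ * S.N

/-- the spectral gap (consequence of the theorem `GAP` on exponential sums) -/
def Gap (B : ℕ) (c X₁ : ℝ) : Prop := 0 < c ∧ 2 ≤ B ∧ ∀ X u : ℝ, X₁ ≤ X → 1 / LL X ≤ |u| →
  |u| ≤ X ^ 3 →
    c ≤ ∑ p ∈ Pr (PP X) (PP X ^ B), 1 / (p : ℝ) * (1 - Real.cos (u * Real.log p)) ∧
    c ≤ ∑ p ∈ Pr (PP X) (PP X ^ B), 1 / (p : ℝ) * (1 + Real.cos (u * Real.log p))

open Classical in
/-- `lam` has the signs of `cos 2π(θ (m - n) + φ)` on the window `(n, n + Y]`, up to `e Y` places,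
and the frequency is generic -/
def GD (lam : ℕ → ℝ) (Q : ℕ) (η e : ℝ) (Y n : ℕ) (θ φ : ℝ) : Prop :=
  (∀ q : ℕ, 1 ≤ q → q ≤ Q → η ≤ nd (q * θ)) ∧
    (((Ioc n (n + Y)).filter fun m : ℕ =>
      lam m * Real.cos (2 * Real.pi * (θ * ((m : ℝ) - n) + φ)) ≤ 0).card : ℝ) ≤ e * Y

/-- structure of `lam` on the window `(n, n + Y]`, with a generic frequency -/
def GW (lam : ℕ → ℝ) (Q : ℕ) (η e : ℝ) (Y n : ℕ) : Prop :=
  ∃ θ φ : ℝ, GD lam Q η e Y n θ φ

/-- a function with the properties of Liouville's function -/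
structure Lio (lam : ℕ → ℝ) : Prop where
  pm : ∀ n, lam n = 1 ∨ lam n = -1
  pr : ∀ p n : ℕ, p.Prime → 1 ≤ n → lam (p * n) = - lam n

end Pool.Agent.H6.N4D
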